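import Mathlib

/-! MP_63137b_co: a multiarrangement with a universal derivation, one of whose localizations
has none. -/

open MvPolynomial

namespace Pool.Agent.Results.MP_63137b_co.Localization

universe u

/-- A multiarrangement in `K^ℓ`: a finite set of nonzero linear forms `α_H` with pairwise distinct
kernels (the hyperplanes), together with a multiplicity (only its values on the forms of the
arrangement matter). -/
structure MultiArr (K : Type u) [Field K] (l : ℕ) where
  /-- the chosen defining forms -/
  forms : Set (Module.Dual K (Fin l → K))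
  finite : forms.Finite
  ne_zero : ∀ a ∈ forms, a ≠ 0
  distinct : ∀ a ∈ forms, ∀ b ∈ forms, LinearMap.ker a = LinearMap.ker b → a = b
  /-- the multiplicity -/
  mult : Module.Dual K (Fin l → K) → ℕ

variable {K : Type u} [Field K] {l : ℕ}

/-- A linear form as a linear polynomial. -/
noncomputable def toPoly (a : Module.Dual K (Fin l → K)) : MvPolynomial (Fin l) K :=
  ∑ k, C (a (Pi.single k 1)) * X k

/-- The value `θ(α)` of the derivation `θ = ∑ θ_k ∂_k` at the linear form `α`. -/
noncomputable def applyForm (t : Fin l → MvPolynomial (Fin l) K)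
    (a : Module.Dual K (Fin l → K)) : MvPolynomial (Fin l) K :=
  ∑ k, C (a (Pi.single k 1)) * t k

/-- The module `D(A, m)` of logarithmic derivations, for the hyperplanes of `A` and an arbitrary
multiplicity `m`; derivations are identified with their coefficient vectors. -/
def LogDer (A : MultiArr K l) (m : Module.Dual K (Fin l → K) → ℕ) :
    Submodule (MvPolynomial (Fin l) K) (Fin l → MvPolynomial (Fin l) K) where
  carrier := {t | ∀ a ∈ A.forms, toPoly a ^ m a ∣ applyForm t a}
  zero_mem' := by
    intro a _
    simp [applyForm]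
  add_mem' := by
    intro s t hs ht a ha
    have : applyForm (s + t) a = applyForm s a + applyForm t a := by
      simp [applyForm, mul_add, Finset.sum_add_distrib]
    rw [this]
    exact dvd_add (hs a ha) (ht a ha)
  smul_mem' := by
    intro c t ht a ha
    have : applyForm (c • t) a = c * applyForm t a := by
      simp only [applyForm, Pi.smul_apply, smul_eq_mul, Finset.mul_sum]
      exact Finset.sum_congr rfl fun k _ => by ring
    rw [this]
    exact Dvd.dvd.mul_left (ht a ha) c

/-- The map `Φ_θ : φ ↦ ∇_φ θ`. -/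
noncomputable def nabla (t : Fin l → MvPolynomial (Fin l) K) :
    (Fin l → MvPolynomial (Fin l) K) →ₗ[MvPolynomial (Fin l) K]
      (Fin l → MvPolynomial (Fin l) K) where
  toFun p := fun i => ∑ j, p j * pderiv j (t i)
  map_add' p q := by
    ext1 i
    simp [add_mul, Finset.sum_add_distrib]
  map_smul' c p := by
    ext1 i
    simp [Finset.mul_sum, mul_assoc]

/-- `θ` is homogeneous. -/
def IsHomog (t : Fin l → MvPolynomial (Fin l) K) : Prop :=
  ∃ d : ℕ, ∀ i, (t i).IsHomogeneous d

/-- `θ` is a universal derivation for the multiarrangement `A`: it is homogeneous, lies in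
`D(A, μ)`, and `Φ_θ` is an isomorphism of `Der_S` onto `D(A, μ - 1)`. -/
def IsUniversal (A : MultiArr K l) (t : Fin l → MvPolynomial (Fin l) K) : Prop :=
  IsHomog t ∧ t ∈ LogDer A A.mult ∧ Function.Injective (nabla t) ∧
    LinearMap.range (nabla t) = LogDer A (fun a => A.mult a - 1)

/-- `L(A)`: intersections of subsets of `A`. -/
def IsFlat (A : MultiArr K l) (X : Submodule K (Fin l → K)) : Prop :=
  ∃ B ⊆ A.forms, X = ⨅ a ∈ B, LinearMap.ker a

/-- The localization `(A_X, μ_X)` regarded in the quotient `V/X`, identified with `K^r` by means of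
a surjective linear map `π : V → K^r` with kernel `X`: its forms are those `β` with `β ∘ π` a form
of `A` (these are the forms of `A` vanishing on `X`), with the same multiplicity. -/
def MultiArr.localize (A : MultiArr K l) {r : ℕ} (π : (Fin l → K) →ₗ[K] (Fin r → K))
    (hπ : Function.Surjective π) : MultiArr K r where
  forms := {b | b ∘ₗ π ∈ A.forms}
  finite := by
    apply A.finite.preimage (f := fun b : Module.Dual K (Fin r → K) => b ∘ₗ π)
    intro a _ b _ hab
    apply LinearMap.ext
    intro v
    obtain ⟨w, rfl⟩ := hπ v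
    exact LinearMap.congr_fun hab w
  ne_zero := by
    rintro a ha rfl
    exact A.ne_zero _ ha (by rw [LinearMap.zero_comp])
  distinct := by
    intro a ha b hb hab
    have h := A.distinct _ ha _ hb (by rw [LinearMap.ker_comp, LinearMap.ker_comp, hab])
    apply LinearMap.ext
    intro v
    obtain ⟨w, rfl⟩ := hπ v
    exact LinearMap.congr_fun h w
  mult := fun b => A.mult (b ∘ₗ π)

section general

theorem toPoly_homog (a : Module.Dual K (Fin l → K)) : (toPoly a).IsHomogeneous 1 := by
  unfold toPoly
  apply IsHomogeneous.sum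
  intro k _
  exact isHomogeneous_C_mul_X _ _

theorem eval_toPoly (a : Module.Dual K (Fin l → K)) (v : Fin l → K) :
    eval v (toPoly a) = a v := by
  unfold toPoly
  rw [map_sum]
  simp only [map_mul, eval_C, eval_X]
  conv_rhs => rw [← LinearMap.sum_single_apply (fun _ => K) v, map_sum]
  refine Finset.sum_congr rfl fun k _ => ?_
  have : (Pi.single k (v k) : Fin l → K) = v k • Pi.single k 1 := by
    rw [← Pi.single_smul, smul_eq_mul, mul_one]
  rw [this, map_smul, smul_eq_mul, mul_comm]

theorem toPoly_ne_zero {a : Module.Dual K (Fin l → K)} (ha : a ≠ 0) : toPoly a ≠ 0 := by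
  intro h
  apply ha
  apply LinearMap.ext
  intro v
  rw [← eval_toPoly, h, map_zero, LinearMap.zero_apply]

theorem applyForm_const (w : Fin l → K) (a : Module.Dual K (Fin l → K)) :
    applyForm (fun k => C (w k)) a = C (a w) := by
  unfold applyForm
  rw [← eval_toPoly a w]
  unfold toPoly
  rw [map_sum, map_sum]
  refine Finset.sum_congr rfl fun k _ => ?_
  simp

theorem applyForm_smul (c : MvPolynomial (Fin l) K) (t : Fin l → MvPolynomial (Fin l) K)
    (a : Module.Dual K (Fin l → K)) : applyForm (fun k => c * t k) a = c * applyForm t a := by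
  simp only [applyForm, Finset.mul_sum]
  exact Finset.sum_congr rfl fun k _ => by ring

theorem applyForm_nabla (t p : Fin l → MvPolynomial (Fin l) K)
    (a : Module.Dual K (Fin l → K)) :
    applyForm (nabla t p) a = ∑ j, p j * pderiv j (applyForm t a) := by
  simp only [applyForm, nabla, LinearMap.coe_mk, AddHom.coe_mk, map_sum, Derivation.leibniz,
    pderiv_C, smul_eq_mul, Finset.mul_sum]
  rw [Finset.sum_comm]
  refine Finset.sum_congr rfl fun j _ => Finset.sum_congr rfl fun k _ => ?_
  ring

/-- General obstruction: if some hyperplane has multiplicity at least `2` and the constant vector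
`w` is killed by all forms of multiplicity at least `2`, there is no universal derivation. -/
theorem no_universal (A : MultiArr K l) (b : Module.Dual K (Fin l → K)) (hb : b ∈ A.forms)
    (hmb : 2 ≤ A.mult b) (w : Fin l → K) (hw : w ≠ 0)
    (hkill : ∀ a ∈ A.forms, 2 ≤ A.mult a → a w = 0)
    (honly : ∀ a ∈ A.forms, 2 ≤ A.mult a → a = b) (v : Fin l → K) (hv : b v = 1) :
    ¬ ∃ t, IsUniversal A t := by
  rintro ⟨t, ⟨d, hd⟩, htD, hinj, hrange⟩
  -- the constant derivation `w`
  have hwD : (fun k => C (w k) : Fin l → MvPolynomial (Fin l) K) ∈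
      LogDer A (fun a => A.mult a - 1) := by
    intro a ha
    rw [applyForm_const]
    by_cases h : 2 ≤ A.mult a
    · rw [hkill a ha h, map_zero]
      exact dvd_zero _
    · have : A.mult a - 1 = 0 := by omega
      simp only [this, pow_zero]
      exact one_dvd _
  rw [← hrange] at hwD
  obtain ⟨p, hp⟩ := hwD
  obtain ⟨i, hi⟩ : ∃ i, w i ≠ 0 := by
    by_contra h
    push Not at h
    exact hw (funext h)
  have hpi : ∑ j, p j * pderiv j (t i) = C (w i) := congrFun hp i
  -- the degree of `θ` is one
  have hd1 : d = 1 := by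
    rcases Nat.lt_trichotomy d 1 with h | h | h
    · exfalso
      have h0 : d = 0 := by omega
      subst h0
      have hc : t i = C (coeff 0 (t i)) := totalDegree_eq_zero_iff_eq_C.1
        ((totalDegree_zero_iff_isHomogeneous _).2 (hd i))
      have : ∀ j, pderiv j (t i) = 0 := by
        intro j
        rw [hc, pderiv_C]
      simp only [this, mul_zero, Finset.sum_const_zero] at hpi
      exact hi (C_injective _ _ (by rw [← hpi, map_zero]))
    · exact h
    · exfalso
      have hcoef : ∀ j, constantCoeff (pderiv j (t i)) = 0 := by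
        intro j
        have h1 := (hd i).pderiv (i := j)
        rw [constantCoeff_eq]
        apply h1.coeff_eq_zero
        simp only [map_zero]
        omega
      have h2 := congrArg constantCoeff hpi
      rw [map_sum, constantCoeff_C] at h2
      simp only [map_mul, hcoef, mul_zero, Finset.sum_const_zero] at h2
      exact hi h2.symm
  subst hd1
  -- `θ(b) = 0`
  have hb0 : b ≠ 0 := A.ne_zero b hb
  have htb : applyForm t b = 0 := by
    by_contra hne
    have hhom : (applyForm t b).IsHomogeneous 1 := by
      unfold applyForm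
      apply IsHomogeneous.sum
      intro k _
      exact (hd k).C_mul _
    obtain ⟨q, hq⟩ := htD b hb
    have hq0 : q ≠ 0 := by
      rintro rfl
      rw [mul_zero] at hq
      exact hne hq
    have hp0 : toPoly b ^ A.mult b ≠ 0 := pow_ne_zero _ (toPoly_ne_zero hb0)
    have h1 := hhom.totalDegree hne
    rw [hq, totalDegree_mul_of_isDomain hp0 hq0,
      ((toPoly_homog b).pow (A.mult b)).totalDegree hp0] at h1
    omega
  -- the derivation `b^(μ-1) v`
  have hvD : (fun k => toPoly b ^ (A.mult b - 1) * C (v k) : Fin l → MvPolynomial (Fin l) K) ∈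
      LogDer A (fun a => A.mult a - 1) := by
    intro a ha
    rw [applyForm_smul, applyForm_const]
    by_cases h : 2 ≤ A.mult a
    · rw [honly a ha h]
      exact Dvd.intro _ rfl
    · have : A.mult a - 1 = 0 := by omega
      simp only [this, pow_zero]
      exact one_dvd _
  rw [← hrange] at hvD
  obtain ⟨p', hp'⟩ := hvD
  have h1 := applyForm_nabla t p' b
  rw [htb] at h1
  simp only [map_zero, mul_zero, Finset.sum_const_zero] at h1
  rw [hp', applyForm_smul, applyForm_const, hv, map_one, mul_one] at h1
  exact pow_ne_zero _ (toPoly_ne_zero hb0) h1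

end general

section example3

/-- coordinate forms -/
def pr (i : Fin 3) : Module.Dual K (Fin 3 → K) := LinearMap.proj i

theorem pr_apply (i : Fin 3) (v : Fin 3 → K) : (pr i : Module.Dual K (Fin 3 → K)) v = v i := rfl

theorem toPoly_pr (i : Fin 3) : toPoly (pr i : Module.Dual K (Fin 3 → K)) = X i := by
  unfold toPoly
  rw [Finset.sum_eq_single i]
  · rw [pr_apply, Pi.single_eq_same, map_one, one_mul]
  · intro k _ hk
    rw [pr_apply, Pi.single_eq_of_ne hk.symm, map_zero, zero_mul]
  · intro h
    exact absurd (Finset.mem_univ i) h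

theorem toPoly_sub (a b : Module.Dual K (Fin 3 → K)) : toPoly (a - b) = toPoly a - toPoly b := by
  simp [toPoly, sub_mul, Finset.sum_sub_distrib]

theorem applyForm_pr (t : Fin 3 → MvPolynomial (Fin 3) K) (i : Fin 3) :
    applyForm t (pr i) = t i := by
  unfold applyForm
  rw [Finset.sum_eq_single i]
  · rw [pr_apply, Pi.single_eq_same, map_one, one_mul]
  · intro k _ hk
    rw [pr_apply, Pi.single_eq_of_ne hk.symm, map_zero, zero_mul]
  · intro h
    exact absurd (Finset.mem_univ i) h

theorem applyForm_sub (t : Fin 3 → MvPolynomial (Fin 3) K) (a b : Module.Dual K (Fin 3 → K)) :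
    applyForm t (a - b) = applyForm t a - applyForm t b := by
  simp [applyForm, sub_mul, Finset.sum_sub_distrib]

open Classical in
/-- The braid arrangement `x_i = 0`, `x_i = x_j` in `K^3`, with multiplicity `3` on the coordinate
hyperplanes and `1` on the others. -/
noncomputable def A3 (K : Type u) [Field K] : MultiArr K 3 where
  forms := {a | (∃ i, a = pr i) ∨ ∃ i j : Fin 3, i < j ∧ a = pr i - pr j}
  finite := by
    have h1 : (Set.range (fun i : Fin 3 => (pr i : Module.Dual K (Fin 3 → K)))).Finite :=
      Set.finite_range _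
    have h2 : (Set.range (fun p : Fin 3 × Fin 3 =>
        (pr p.1 - pr p.2 : Module.Dual K (Fin 3 → K)))).Finite := Set.finite_range _
    apply (h1.union h2).subset
    rintro a (⟨i, rfl⟩ | ⟨i, j, _, rfl⟩)
    · exact Or.inl ⟨i, rfl⟩
    · exact Or.inr ⟨(i, j), rfl⟩
  ne_zero := by
    rintro a (⟨i, rfl⟩ | ⟨i, j, hij, rfl⟩) h
    · have := LinearMap.congr_fun h (fun _ => 1)
      rw [pr_apply] at this
      simp at this
    · have := LinearMap.congr_fun h (Pi.single i 1)
      rw [LinearMap.sub_apply, pr_apply, pr_apply, Pi.single_eq_same,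
        Pi.single_eq_of_ne (ne_of_gt hij)] at this
      simp at this
  distinct := by
    have key : ∀ a b : Module.Dual K (Fin 3 → K), LinearMap.ker a = LinearMap.ker b →
        ∀ v, a v = 0 ↔ b v = 0 := by
      intro a b h v
      rw [← LinearMap.mem_ker, ← LinearMap.mem_ker, h]
    rintro a (⟨i, rfl⟩ | ⟨i, j, hij, rfl⟩) b (⟨k, rfl⟩ | ⟨k, m, hkm, rfl⟩) h
    · have h1 := (key _ _ h (Pi.single k 1))
      rw [pr_apply, pr_apply, Pi.single_eq_same] at h1
      by_contra hne
      have hik : i ≠ k := fun h' => hne (by rw [h'])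
      rw [Pi.single_eq_of_ne hik] at h1
      simp at h1
    · have h1 := (key _ _ h (fun _ => 1))
      rw [LinearMap.sub_apply, pr_apply, pr_apply, pr_apply] at h1
      simp at h1
    · have h1 := (key _ _ h (fun _ => 1))
      rw [LinearMap.sub_apply, pr_apply, pr_apply, pr_apply] at h1
      simp at h1
    · have h1 := (key _ _ h (Pi.single i 1 + Pi.single j 1))
      have h2 := (key _ _ h (Pi.single k 1))
      simp only [LinearMap.sub_apply, pr_apply, Pi.add_apply] at h1 h2
      fin_cases i <;> fin_cases j <;> fin_cases k <;> fin_cases m <;>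
        simp at hij hkm h1 h2 ⊢
  mult := fun a => if ∃ i, a = pr i then 3 else 1

theorem mult_pr (i : Fin 3) : (A3 K).mult (pr i) = 3 := by
  classical
  change (if ∃ j, pr i = pr j then 3 else 1) = 3
  rw [if_pos ⟨i, rfl⟩]

theorem mult_sub (i j : Fin 3) : (A3 K).mult (pr i - pr j) = 1 := by
  classical
  change (if ∃ k, pr i - pr j = pr k then 3 else 1) = 1
  rw [if_neg]
  rintro ⟨k, hk⟩
  have := LinearMap.congr_fun hk (fun _ => 1)
  rw [LinearMap.sub_apply, pr_apply, pr_apply, pr_apply] at this
  simp at this

/-- `θ = ∑ x_i³ ∂_i` -/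
noncomputable def th (K : Type u) [Field K] : Fin 3 → MvPolynomial (Fin 3) K := fun i => X i ^ 3

theorem nabla_th (p : Fin 3 → MvPolynomial (Fin 3) K) (i : Fin 3) :
    nabla (th K) p i = C 3 * (X i ^ 2 * p i) := by
  change ∑ j, p j * pderiv j (X i ^ 3) = _
  rw [Finset.sum_eq_single i]
  · rw [pderiv_pow, pderiv_X_self]
    have : (C (3 : K) : MvPolynomial (Fin 3) K) = 3 := by
      rw [show (3 : K) = ((3 : ℕ) : K) by norm_num, map_natCast]
      norm_num
    rw [this]
    push_cast
    ring
  · intro j _ hj
    rw [pderiv_pow, pderiv_X_of_ne hj.symm, mul_zero, mul_zero]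
  · intro h
    exact absurd (Finset.mem_univ i) h

theorem universal_th [CharZero K] : IsUniversal (A3 K) (th K) := by
  refine ⟨⟨3, fun i => isHomogeneous_X_pow i 3⟩, ?_, ?_, ?_⟩
  · rintro a (⟨i, rfl⟩ | ⟨i, j, _, rfl⟩)
    · rw [mult_pr, toPoly_pr, applyForm_pr]
      exact dvd_rfl
    · rw [mult_sub, toPoly_sub, toPoly_pr, toPoly_pr, applyForm_sub, applyForm_pr, applyForm_pr,
        pow_one]
      exact sub_dvd_pow_sub_pow _ _ _
  · intro p q hpq
    ext1 i
    have h1 := congrFun hpq i
    rw [nabla_th, nabla_th] at h1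
    have h3 : (C (3 : K) : MvPolynomial (Fin 3) K) ≠ 0 := by
      rw [Ne, C_eq_zero]
      norm_num
    exact mul_left_cancel₀ (pow_ne_zero 2 (X_ne_zero i)) (mul_left_cancel₀ h3 h1)
  · ext s
    constructor
    · rintro ⟨p, rfl⟩ a (⟨i, rfl⟩ | ⟨i, j, _, rfl⟩)
      · simp only [mult_pr, toPoly_pr, applyForm_pr]
        rw [nabla_th]
        exact Dvd.dvd.mul_left (Dvd.intro _ rfl) _
      · simp only [mult_sub]
        simp
    · intro hs
      have h1 : ∀ i, ∃ q, s i = X i ^ 2 * q := by
        intro i
        have := hs (pr i) (Or.inl ⟨i, rfl⟩)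
        simp only [mult_pr, toPoly_pr, applyForm_pr] at this
        exact this
      choose q hq using h1
      refine ⟨fun i => C (3⁻¹) * q i, ?_⟩
      ext1 i
      rw [nabla_th, hq i]
      have h3 : (C (3 : K) * C (3⁻¹) : MvPolynomial (Fin 3) K) = 1 := by
        rw [← C_mul, mul_inv_cancel₀ (by norm_num), C_1]
      calc C 3 * (X i ^ 2 * (C 3⁻¹ * q i)) = (C 3 * C 3⁻¹) * (X i ^ 2 * q i) := by ring
        _ = X i ^ 2 * q i := by rw [h3, one_mul]

end example3

/-- There is a multiarrangement `(A, μ)`, `μ ≥ 1`, in `K^3` that admits a universal derivation, and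
`X ∈ L(A)`, such that the localization `(A_X, μ_X)` in `V/X` admits no universal derivation (for any
identification of `V/X` with a coordinate space `K^r`). -/
theorem result (K : Type u) [Field K] [CharZero K] :
    ∃ A : MultiArr K 3, (∀ a ∈ A.forms, 1 ≤ A.mult a) ∧ (∃ t, IsUniversal A t) ∧
      ∃ X : Submodule K (Fin 3 → K), IsFlat A X ∧
        (∃ π : (Fin 3 → K) →ₗ[K] (Fin 2 → K), Function.Surjective π ∧ LinearMap.ker π = X) ∧
        ∀ (r : ℕ) (π : (Fin 3 → K) →ₗ[K] (Fin r → K)) (hπ : Function.Surjective π),
          LinearMap.ker π = X → ¬ ∃ t, IsUniversal (A.localize π hπ) t := by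
  classical
  refine ⟨A3 K, ?_, ⟨th K, universal_th⟩, LinearMap.ker (pr 0) ⊓ LinearMap.ker (pr 1 - pr 2),
    ?_, ?_, ?_⟩
  · rintro a (⟨i, rfl⟩ | ⟨i, j, _, rfl⟩)
    · rw [mult_pr]
      norm_num
    · rw [mult_sub]
  · refine ⟨{pr 0, pr 1 - pr 2}, ?_, ?_⟩
    · rintro a (rfl | rfl)
      · exact Or.inl ⟨0, rfl⟩
      · exact Or.inr ⟨1, 2, by decide, rfl⟩
    · rw [iInf_pair]
  · refine ⟨LinearMap.pi ![pr 0, pr 1 - pr 2], ?_, ?_⟩
    · intro v
      refine ⟨![v 0, v 1, 0], ?_⟩
      ext1 i
      fin_cases i
      · simp [pr_apply]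
      · simp [pr_apply]
    · ext v
      rw [LinearMap.mem_ker, Submodule.mem_inf, LinearMap.mem_ker, LinearMap.mem_ker]
      constructor
      · intro h
        exact ⟨congrFun h 0, congrFun h 1⟩
      · rintro ⟨h1, h2⟩
        ext1 i
        fin_cases i
        · exact h1
        · exact h2
  · intro r π hπ hker
    obtain ⟨s, hs⟩ := LinearMap.exists_rightInverse_of_surjective π (LinearMap.range_eq_top.2 hπ)
    have hsπ : ∀ v, s (π v) - v ∈ LinearMap.ker π := by
      intro v
      rw [LinearMap.mem_ker, map_sub]
      have := LinearMap.congr_fun hs (π v)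
      rw [LinearMap.comp_apply, LinearMap.id_apply] at this
      rw [this, sub_self]
    set b : Module.Dual K (Fin r → K) := pr 0 ∘ₗ s with hb
    have hbπ : b ∘ₗ π = pr 0 := by
      apply LinearMap.ext
      intro v
      have h1 := hsπ v
      rw [hker] at h1
      have h2 := h1.1
      rw [SetLike.mem_coe, LinearMap.mem_ker, map_sub, sub_eq_zero] at h2
      exact h2
    have huniq : ∀ a : Module.Dual K (Fin r → K), a ∘ₗ π = pr 0 → a = b := by
      intro a ha
      apply LinearMap.ext
      intro v
      obtain ⟨w, rfl⟩ := hπ v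
      have h1 := LinearMap.congr_fun ha w
      have h2 := LinearMap.congr_fun hbπ w
      rw [LinearMap.comp_apply] at h1 h2
      rw [h1, h2]
    have honly : ∀ a ∈ ((A3 K).localize π hπ).forms, 2 ≤ ((A3 K).localize π hπ).mult a →
        a = b := by
      intro a ha hm
      apply huniq
      have ha' : a ∘ₗ π ∈ (A3 K).forms := ha
      have hm' : 2 ≤ (A3 K).mult (a ∘ₗ π) := hm
      rcases ha' with ⟨i, hi⟩ | ⟨i, j, _, hij⟩
      · have h1 : (fun k => if k = 0 then 0 else 1 : Fin 3 → K) ∈ LinearMap.ker π := by
          rw [hker]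
          constructor
          · rw [SetLike.mem_coe, LinearMap.mem_ker, pr_apply]
            simp
          · rw [SetLike.mem_coe, LinearMap.mem_ker, LinearMap.sub_apply, pr_apply, pr_apply]
            simp
        have h2 := LinearMap.congr_fun hi (fun k => if k = 0 then 0 else 1)
        rw [LinearMap.comp_apply, LinearMap.mem_ker.1 h1, map_zero, pr_apply] at h2
        have h3 : i = 0 := by
          by_contra h
          rw [if_neg h] at h2
          exact zero_ne_one h2
        rw [hi, h3]
      · rw [hij, mult_sub] at hm'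
        omega
    refine no_universal _ b ?_ ?_ (π (Pi.single 1 1)) ?_ ?_ honly (π (Pi.single 0 1)) ?_
    · change b ∘ₗ π ∈ (A3 K).forms
      rw [hbπ]
      exact Or.inl ⟨0, rfl⟩
    · change 2 ≤ (A3 K).mult (b ∘ₗ π)
      rw [hbπ, mult_pr]
      norm_num
    · intro h
      rw [← LinearMap.mem_ker, hker] at h
      have h2 := h.2
      rw [SetLike.mem_coe, LinearMap.mem_ker, LinearMap.sub_apply, pr_apply, pr_apply,
        Pi.single_eq_same, Pi.single_eq_of_ne (by decide)] at h2
      simp at h2
    · intro a ha hm
      rw [honly a ha hm]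
      have := LinearMap.congr_fun hbπ (Pi.single 1 1)
      rw [LinearMap.comp_apply] at this
      rw [this, pr_apply, Pi.single_eq_of_ne (by decide)]
    · have := LinearMap.congr_fun hbπ (Pi.single 0 1)
      rw [LinearMap.comp_apply] at this
      rw [this, pr_apply, Pi.single_eq_same]

end Pool.Agent.Results.MP_63137b_co.Localization
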